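import Pool.Agent.Lib_helper64.LDS.Defs

/-!
# Fractional powers of a Stieltjes matrix are Stieltjes matrices
-/

set_option autoImplicit false

open scoped ENNReal ComplexOrder Kronecker

namespace Pool.Agent.LDS

open Matrix MeasureTheory Set
open Pool.Agent.Lib_helper98.Renyi Pool.Agent.Lib_helper59.Lieb Pool.Agent.Lib_helper59.RCT

variable {m : Type} [Fintype m] [DecidableEq m]

/-- a positive definite matrix with nonpositive off-diagonal entries has a nonnegative inverse -/
theorem inv_nonneg_of_stieltjes {M R : Matrix m m ℝ} (hM : M.PosDef)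
    (h0 : ∀ i j, i ≠ j → M i j ≤ 0) (hR : M * R = 1) (i j : m) : 0 ≤ R i j := by
  classical
  set v : m → ℝ := fun i => R i j with hv
  set w : m → ℝ := fun i => max (-(v i)) 0 with hw
  set p : m → ℝ := fun i => max (v i) 0 with hp
  have hpv : ∀ i, p i = v i + w i := by
    intro i
    simp only [hp, hw]
    rcases le_total (v i) 0 with h | h
    · rw [max_eq_right h, max_eq_left (by linarith)]; ring
    · rw [max_eq_left h, max_eq_right (by linarith)]; ring
  have hw0 : ∀ i, 0 ≤ w i := fun i => le_max_right _ _
  have hp0 : ∀ i, 0 ≤ p i := fun i => le_max_right _ _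
  have hwp : ∀ i, w i * p i = 0 := by
    intro i
    simp only [hp, hw]
    rcases le_total (v i) 0 with h | h
    · rw [max_eq_right h, mul_zero]
    · rw [max_eq_right (show -(v i) ≤ 0 by linarith), zero_mul]
  have hMv : ∀ i, (M *ᵥ v) i = if i = j then 1 else 0 := by
    intro i
    have h := congrFun (congrFun hR i) j
    rw [mul_apply] at h
    rw [mulVec, dotProduct]
    simpa [hv, one_apply] using h
  have h1 : w ⬝ᵥ (M *ᵥ p) ≤ 0 := by
    rw [dotProduct]
    refine Finset.sum_nonpos fun i _ => ?_
    rw [mulVec, dotProduct, Finset.mul_sum]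
    refine Finset.sum_nonpos fun k _ => ?_
    by_cases hik : i = k
    · subst hik
      have : w i * (M i i * p i) = M i i * (w i * p i) := by ring
      rw [this, hwp, mul_zero]
    · have : w i * (M i k * p k) = M i k * (w i * p k) := by ring
      rw [this]
      exact mul_nonpos_of_nonpos_of_nonneg (h0 i k hik) (mul_nonneg (hw0 i) (hp0 k))
  have h2 : w ⬝ᵥ (M *ᵥ p) = w j + w ⬝ᵥ (M *ᵥ w) := by
    have hp' : p = v + w := funext hpv
    rw [hp', mulVec_add, dotProduct_add]
    congr 1
    rw [dotProduct]
    rw [Finset.sum_eq_single j]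
    · rw [hMv, if_pos rfl, mul_one]
    · intro i _ hij
      rw [hMv, if_neg hij, mul_zero]
    · intro h
      exact absurd (Finset.mem_univ j) h
  have h3 : w = 0 := by
    by_contra hne
    have h4 := hM.dotProduct_mulVec_pos hne
    rw [star_trivial] at h4
    have h5 := hw0 j
    linarith
  have h6 : w i = 0 := by rw [h3]; rfl
  have h7 : -(v i) ≤ w i := le_max_left _ _
  have : 0 ≤ v i := by linarith
  exact this

/-- fractional powers of a Stieltjes matrix are Stieltjes -/
theorem frac {N : Matrix m m ℝ} (hN : N.PosDef) (h0 : ∀ i j, i ≠ j → N i j ≤ 0) {s : ℝ}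
    (hs0 : 0 < s) (hs1 : s ≤ 1) : ∃ N' : Matrix m m ℝ, (∀ i j, i ≠ j → N' i j ≤ 0) ∧
      cm N' = cfc (fun x : ℝ => x ^ s) (cm N) := by
  classical
  have hH := hN.isHermitian
  set l : m → ℝ := hH.eigenvalues with hl
  set V : Matrix m m ℝ := (hH.eigenvectorUnitary : Matrix m m ℝ) with hV
  have hl0 : ∀ i, 0 < l i := hN.eigenvalues_pos
  have hVV : Vᵀ * V = 1 := by
    have := Unitary.coe_star_mul_self hH.eigenvectorUnitary
    rwa [star_eq_conjTranspose, conjTranspose_eq_transpose_of_trivial] at this
  have hVV' : V * Vᵀ = 1 := mul_eq_one_comm.1 hVV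
  have hNV : N = V * diagonal l * Vᵀ := by
    have h := hH.spectral_theorem
    rw [Unitary.conjStarAlgAut_apply, star_eq_conjTranspose,
      conjTranspose_eq_transpose_of_trivial] at h
    exact h
  -- the inverses of `t + N`
  have hR : ∀ t : ℝ, 0 < t → ∀ i j, 0 ≤ (V * diagonal (fun k => (t + l k)⁻¹) * Vᵀ) i j := by
    intro t ht
    have hM : (t • (1 : Matrix m m ℝ) + N).PosDef :=
      (Matrix.PosDef.one.smul ht).add hN
    refine inv_nonneg_of_stieltjes (M := t • (1 : Matrix m m ℝ) + N) hM ?_ ?_
    · intro i j hij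
      rw [Matrix.add_apply, Matrix.smul_apply, one_apply_ne hij, smul_zero, zero_add]
      exact h0 i j hij
    · have e1 : t • (1 : Matrix m m ℝ) + N = V * diagonal (fun k => t + l k) * Vᵀ := by
        have e2 : (diagonal fun k => t + l k) = t • (1 : Matrix m m ℝ) + diagonal l := by
          ext i j
          by_cases hij : i = j
          · subst hij; simp
          · simp [hij]
        rw [e2, Matrix.mul_add, Matrix.add_mul, ← hNV, Matrix.mul_smul, Matrix.mul_one,
          Matrix.smul_mul, hVV']
      rw [e1]
      calc V * diagonal (fun k => t + l k) * Vᵀ * (V * diagonal (fun k => (t + l k)⁻¹) * Vᵀ)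
          = V * diagonal (fun k => t + l k) * (Vᵀ * V) * diagonal (fun k => (t + l k)⁻¹) * Vᵀ := by
            simp only [Matrix.mul_assoc]
        _ = 1 := by
            rw [hVV, Matrix.mul_one, Matrix.mul_assoc V, diagonal_mul_diagonal]
            have e3 : (fun k => (t + l k) * (t + l k)⁻¹) = fun _ => (1 : ℝ) := by
              funext k
              exact mul_inv_cancel₀ (by have := hl0 k; linarith)
            rw [e3, diagonal_one, Matrix.mul_one, hVV']
  have hent : ∀ (f : m → ℝ) (i j : m),
      (V * diagonal f * Vᵀ) i j = ∑ k, V i k * V j k * f k := by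
    intro f i j
    rw [mul_apply]
    refine Finset.sum_congr rfl fun k _ => ?_
    rw [mul_diagonal, transpose_apply]
    ring
  refine ⟨V * diagonal (fun k => l k ^ s) * Vᵀ, ?_, ?_⟩
  · intro i j hij
    rcases hs1.lt_or_eq with hs | hs
    · have hp : s ∈ Ioo (0 : ℝ) 1 := ⟨hs0, hs⟩
      set c : ℝ := ∫ t in Ioi (0 : ℝ), Real.rpowIntegrand₀₁ s t 1 with hc
      have hcp : 0 < c := Real.integral_rpowIntegrand₀₁_one_pos hp
      have e1 : (V * diagonal (fun k => l k ^ s) * Vᵀ) i j * c =
          ∫ t in Ioi (0 : ℝ), ∑ k, V i k * V j k * Real.rpowIntegrand₀₁ s t (l k) := by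
        rw [integral_finsetSum]
        · rw [hent, Finset.sum_mul]
          refine Finset.sum_congr rfl fun k _ => ?_
          rw [integral_const_mul, Real.integral_rpowIntegrand₀₁_eq_rpow_mul_const hp (hl0 k).le]
          ring
        · intro k _
          exact (Real.integrableOn_rpowIntegrand₀₁_Ioi hp (hl0 k).le).const_mul _
      have e2 : (∫ t in Ioi (0 : ℝ), ∑ k, V i k * V j k * Real.rpowIntegrand₀₁ s t (l k)) ≤ 0 := by
        refine setIntegral_nonpos measurableSet_Ioi fun t ht => ?_
        have ht' : (0 : ℝ) < t := ht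
        have e3 : ∑ k, V i k * V j k * Real.rpowIntegrand₀₁ s t (l k) =
            t ^ s * (t⁻¹ * (V * Vᵀ) i j - (V * diagonal (fun k => (t + l k)⁻¹) * Vᵀ) i j) := by
          rw [hent, mul_apply, Finset.mul_sum, ← Finset.sum_sub_distrib, Finset.mul_sum]
          refine Finset.sum_congr rfl fun k _ => ?_
          rw [Real.rpowIntegrand₀₁, transpose_apply]
          ring
        rw [e3, hVV', one_apply_ne hij, mul_zero, zero_sub]
        have := hR t ht' i j
        have h5 : 0 ≤ t ^ s := (Real.rpow_pos_of_pos ht' s).le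
        nlinarith [mul_nonneg h5 this]
      by_contra hcon
      push Not at hcon
      have := mul_pos hcon hcp
      linarith
    · subst hs
      have : (fun k => l k ^ (1 : ℝ)) = l := by
        funext k
        exact Real.rpow_one _
      rw [this, ← hNV]
      exact h0 i j hij
  · have hcV : ∀ f : m → ℝ, cm (V * diagonal f * Vᵀ) = cm V * dg f * (cm V)ᴴ := by
      intro f
      ext i j
      have e1 : cm (V * diagonal f * Vᵀ) i j = ((∑ k, V i k * V j k * f k : ℝ) : ℂ) := by
        rw [← hent]
        rfl
      rw [e1, Matrix.mul_apply]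
      push_cast
      refine Finset.sum_congr rfl fun k _ => ?_
      rw [dg, Matrix.mul_diagonal, conjTranspose_apply]
      have e2 : star (cm V j k) = (V j k : ℂ) := Complex.conj_ofReal _
      rw [e2]
      have e3 : cm V i k = (V i k : ℂ) := rfl
      rw [e3]
      ring
    have hU : (cm V)ᴴ * cm V = 1 := by
      ext i j
      have h := congrFun (congrFun hVV i) j
      rw [Matrix.mul_apply] at h
      have e1 : ((cm V)ᴴ * cm V) i j = ((∑ k, Vᵀ i k * V k j : ℝ) : ℂ) := by
        rw [Matrix.mul_apply]
        push_cast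
        refine Finset.sum_congr rfl fun k _ => ?_
        rw [conjTranspose_apply]
        have e2 : star (cm V k i) = (V k i : ℂ) := Complex.conj_ofReal _
        rw [e2]
        rfl
      rw [e1, h]
      by_cases hij : i = j
      · subst hij; simp
      · simp [hij]
    have hNc : cm N = cm V * dg l * (cm V)ᴴ := by
      rw [← hcV, ← hNV]
    have e := cfc_conj_diagonal (fun x : ℝ => x ^ s) (cm V) hU l
    change cfc (fun x : ℝ => x ^ s) (cm V * dg l * (cm V)ᴴ) =
      cm V * dg (fun i => l i ^ s) * (cm V)ᴴ at e
    rw [hNc, hcV]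
    exact e.symm

end Pool.Agent.LDS
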